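import Mathlib
import Pool.Agent.X172.GR.Stm

/-! Part GIR of project GR (MP_eff4ce_al): cycle length from levels. -/

namespace Pool.Agent.X153.GR

open Pool.Agent.X172.GR

variable {V : Type} {G : SimpleGraph V}

/-- on a cycle every vertex has, besides a given neighbour, another neighbour on the cycle -/
theorem other {a : V} {w : G.Walk a a} (hw : w.IsCycle) {v : V} (hv : v ∈ w.support) (x : V) :
    ∃ y, y ≠ x ∧ w.toSubgraph.Adj v y := by
  have h2 := hw.ncard_neighborSet_toSubgraph_eq_two hv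
  obtain ⟨p, q, hpq, h⟩ := Set.ncard_eq_two.1 h2
  have hp : w.toSubgraph.Adj v p := by
    have : p ∈ w.toSubgraph.neighborSet v := by rw [h]; simp
    exact this
  have hq : w.toSubgraph.Adj v q := by
    have : q ∈ w.toSubgraph.neighborSet v := by rw [h]; simp
    exact this
  by_cases hpx : p = x
  · exact ⟨q, fun h => hpq (hpx.trans h.symm), hq⟩
  · exact ⟨p, hpx, hp⟩

theorem mem_of_adj {a : V} {w : G.Walk a a} {v x : V} (h : w.toSubgraph.Adj v x) :
    x ∈ w.support := by
  have := w.toSubgraph.edge_vert h.symm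
  rwa [SimpleGraph.Walk.mem_verts_toSubgraph] at this

theorem mem_tail {a : V} {w : G.Walk a a} (hw : w.IsCycle) {v : V} (hv : v ∈ w.support) :
    v ∈ w.support.tail := by
  cases w with
  | nil => exact absurd hw SimpleGraph.Walk.not_isCycle_nil
  | cons h p =>
    simp only [SimpleGraph.Walk.support_cons, List.tail_cons, List.mem_cons] at hv ⊢
    rcases hv with rfl | hv
    · exact p.end_mem_support
    · exact hv

theorem t_GIR : S_GIR := by
  classical
  intro V G K U0 U1 N hK hU0 hU1 hU01 H a w hw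
  -- the main dichotomy, for vertices of the cycle outside `K`
  have key : ∀ s ∈ w.support, s ∉ K → ∃ s1 ∈ w.support, ∃ s1' ∈ w.support, s1 ∉ K ∧ s1' ∉ K ∧
      ((∃ u, U0 s u ∧ 1 ≤ u ∧ u ≤ N ∧ (u < N → U0 s1 (u + 1) ∨ U0 s1' (u + 1)) ∧
      (1 < u → U0 s1 (u - 1) ∨ U0 s1' (u - 1))) ∨
      ∃ u, U1 s (u + 1) ∧ (U1 s1 u ∨ U1 s1' u)) := by
    intro s hs hsK
    obtain ⟨κ, _, hκ⟩ := other hw hs s
    obtain ⟨κ', hne, hκ'⟩ := other hw hs κ
    have hκs := mem_of_adj hκ
    have hκs' := mem_of_adj hκ'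
    obtain ⟨s1, h1ne, h1⟩ := other hw hκs s
    obtain ⟨s1', h1ne', h1'⟩ := other hw hκs' s
    have hs1 := mem_of_adj h1
    have hs1' := mem_of_adj h1'
    obtain ⟨κ2, h2ne, h2⟩ := other hw hs1 κ
    obtain ⟨κ2', h2ne', h2'⟩ := other hw hs1' κ'
    have a1 : G.Adj s κ := hκ.adj_sub
    have a2 : G.Adj s κ' := hκ'.adj_sub
    have a3 : G.Adj κ s1 := h1.adj_sub
    have a4 : G.Adj κ' s1' := h1'.adj_sub
    have k1 : κ ∈ K := by
      by_contra h
      exact hsK ((hK s κ a1).2 h)
    have k2 : κ' ∈ K := by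
      by_contra h
      exact hsK ((hK s κ' a2).2 h)
    refine ⟨s1, hs1, s1', hs1', (hK κ s1 a3).1 k1, (hK κ' s1' a4).1 k2, ?_⟩
    exact H s κ κ' s1 s1' hsK a1 a2 hne.symm a3 a4 h1ne h1ne'
      ⟨κ2, h2ne, h2.adj_sub⟩ ⟨κ2', h2ne', h2'.adj_sub⟩
  -- no level `U1`
  have noU1 : ∀ v s, s ∈ w.support → s ∉ K → ¬ U1 s v := by
    intro v
    induction v using Nat.strong_induction_on with
    | _ v ih =>
      intro s hs hsK hv
      obtain ⟨s1, hs1, s1', hs1', hk1, hk1', h⟩ := key s hs hsK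
      rcases h with ⟨u, hu, _⟩ | ⟨u, hu, h⟩
      · exact hU01 s u v ⟨hu, hv⟩
      · have := hU1 s v (u + 1) hv hu
        subst this
        rcases h with h | h
        · exact ih u (by omega) s1 hs1 hk1 h
        · exact ih u (by omega) s1' hs1' hk1' h
  have key2 : ∀ s ∈ w.support, s ∉ K → ∃ u, U0 s u ∧ 1 ≤ u ∧ u ≤ N ∧
      (u < N → ∃ s' ∈ w.support, s' ∉ K ∧ U0 s' (u + 1)) ∧
      (1 < u → ∃ s' ∈ w.support, s' ∉ K ∧ U0 s' (u - 1)) := by
    intro s hs hsK
    obtain ⟨s1, hs1, s1', hs1', hk1, hk1', h⟩ := key s hs hsK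
    rcases h with ⟨u, hu, h1, h2, h3, h4⟩ | ⟨u, hu, _⟩
    · refine ⟨u, hu, h1, h2, ?_, ?_⟩
      · intro hlt
        rcases h3 hlt with h | h
        · exact ⟨s1, hs1, hk1, h⟩
        · exact ⟨s1', hs1', hk1', h⟩
      · intro hlt
        rcases h4 hlt with h | h
        · exact ⟨s1, hs1, hk1, h⟩
        · exact ⟨s1', hs1', hk1', h⟩
    · exact absurd hu (noU1 _ s hs hsK)
  -- a vertex outside `K`
  obtain ⟨s0, hs0, hs0K⟩ : ∃ s ∈ w.support, s ∉ K := by
    by_cases ha : a ∈ K
    · obtain ⟨y, _, hy⟩ := other hw w.start_mem_support a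
      exact ⟨y, mem_of_adj hy, (hK a y hy.adj_sub).1 ha⟩
    · exact ⟨a, w.start_mem_support, ha⟩
  obtain ⟨u0, hu0, hu1, hu2, _, _⟩ := key2 s0 hs0 hs0K
  -- all levels occur
  have up : ∀ k, u0 + k ≤ N → ∃ s ∈ w.support, s ∉ K ∧ U0 s (u0 + k) := by
    intro k
    induction k with
    | zero => intro _; exact ⟨s0, hs0, hs0K, hu0⟩
    | succ k ih =>
      intro hk
      obtain ⟨s, hs, hsK, hsu⟩ := ih (by omega)
      obtain ⟨u, h1, h2, h3, h4, h5⟩ := key2 s hs hsK
      have := hU0 s u (u0 + k) h1 hsu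
      subst this
      exact h4 (by omega)
  have down : ∀ k, k < u0 → ∃ s ∈ w.support, s ∉ K ∧ U0 s (u0 - k) := by
    intro k
    induction k with
    | zero => intro _; exact ⟨s0, hs0, hs0K, hu0⟩
    | succ k ih =>
      intro hk
      obtain ⟨s, hs, hsK, hsu⟩ := ih (by omega)
      obtain ⟨u, h1, h2, h3, h4, h5⟩ := key2 s hs hsK
      have := hU0 s u (u0 - k) h1 hsu
      subst this
      have h6 := h5 (by omega)
      have e : u0 - (k + 1) = u0 - k - 1 := by omega
      rw [e]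
      exact h6
  have all : ∀ u, 1 ≤ u → u ≤ N → ∃ s ∈ w.support, s ∉ K ∧ U0 s u := by
    intro u h1 h2
    rcases le_total u0 u with h | h
    · have := up (u - u0) (by omega)
      have e : u0 + (u - u0) = u := by omega
      rwa [e] at this
    · have := down (u0 - u) (by omega)
      have e : u0 - (u0 - u) = u := by omega
      rwa [e] at this
  haveI : Nonempty V := ⟨a⟩
  choose! f hf using all
  have hcard : (Finset.Icc 1 N).card ≤ (w.support.tail.toFinset).card := by
    apply Finset.card_le_card_of_injOn f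
    · intro u hu
      have hu' := Finset.mem_Icc.1 (by exact_mod_cast hu : u ∈ Finset.Icc 1 N)
      have := hf u hu'.1 hu'.2
      rw [Finset.mem_coe, List.mem_toFinset]
      exact mem_tail hw this.1
    · intro u hu v hv huv
      have hu' := Finset.mem_Icc.1 (by exact_mod_cast hu : u ∈ Finset.Icc 1 N)
      have hv' := Finset.mem_Icc.1 (by exact_mod_cast hv : v ∈ Finset.Icc 1 N)
      have h1 := (hf u hu'.1 hu'.2).2.2
      have h2 := (hf v hv'.1 hv'.2).2.2
      rw [huv] at h1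
      exact hU0 _ u v h1 h2
  have hlen : w.support.tail.length = w.length := by
    rw [List.length_tail, SimpleGraph.Walk.length_support]
    omega
  have h3 := List.toFinset_card_le w.support.tail
  rw [Nat.card_Icc] at hcard
  omega

end Pool.Agent.X153.GR
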